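import Pool.Agent.Lib.MP_f9875e_gt.H28Rec

/-- If every family of fewer than continuum many sequences of natural numbers is eventually
dominated by one sequence (the bounding number equals the continuum), there is a weakly first
countable compact Hausdorff space of cardinality greater than the continuum. -/
theorem Pool.Agent.Results.MP_f9875e_gt.BoundingEqualsContinuum.result
    (hb : ∀ F : Set (ℕ → ℕ), Cardinal.mk F < Cardinal.continuum →
      ∃ g : ℕ → ℕ, ∀ f ∈ F, ∀ᶠ n in Filter.atTop, f n ≤ g n) :
    ∃ (X : Type) (_ : TopologicalSpace X),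
      CompactSpace X ∧ T2Space X ∧
      (∃ V : X → ℕ → Set X,
        (∀ x n, x ∈ V x n) ∧
        (∀ x n, V x (n + 1) ⊆ V x n) ∧
        (∀ O : Set X, IsOpen O ↔ ∀ x ∈ O, ∃ n, V x n ⊆ O)) ∧
      Cardinal.continuum < Cardinal.mk X :=
  Pool.Agent.Lib.MP_f9875e_gt.main_bc hb
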