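import Mathlib

/-!
In ZFC there are arbitrarily large weakly first countable compact spaces in which every compact
set is closed and which are Hausdorff outside one point.
-/

set_option autoImplicit false

namespace Pool.Agent.Results.MP_f9875e_gt.CompactSetsClosed

open Set

lemma exists_mad (β : Type) : ∃ m : Set (Set β), (∀ a ∈ m, a.Countable) ∧
    (∀ a ∈ m, ∀ b ∈ m, a ≠ b → (a ∩ b).Finite) ∧
    ∀ A : Set β, A.Infinite → ∃ a ∈ m, (a ∩ A).Infinite := by
  obtain ⟨m, hm⟩ := zorn_subset {m : Set (Set β) | (∀ a ∈ m, a.Countable) ∧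
      ∀ a ∈ m, ∀ b ∈ m, a ≠ b → (a ∩ b).Finite} (by
    intro c hc hch
    refine ⟨⋃₀ c, ⟨?_, ?_⟩, fun s hs => subset_sUnion_of_mem hs⟩
    · rintro a ⟨s, hs, ha⟩
      exact (hc hs).1 a ha
    · rintro a ⟨s, hs, ha⟩ b ⟨t, ht, hb⟩ hab
      rcases hch.total hs ht with h | h
      · exact (hc ht).2 a (h ha) b hb hab
      · exact (hc hs).2 a ha b (h hb) hab)
  refine ⟨m, hm.1.1, hm.1.2, fun A hA => ?_⟩
  by_contra hcon
  have hfin : ∀ a ∈ m, (a ∩ A).Finite := fun a ha => by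
    by_contra h
    exact hcon ⟨a, ha, h⟩
  obtain ⟨B, hBA, hB, hBc⟩ : ∃ B ⊆ A, B.Infinite ∧ B.Countable :=
    ⟨range fun n => (hA.natEmbedding A n : β), by rintro _ ⟨n, rfl⟩; exact (hA.natEmbedding A n).2,
      infinite_range_of_injective (Subtype.val_injective.comp (hA.natEmbedding A).injective),
      countable_range _⟩
  have hmem : insert B m ∈ {m : Set (Set β) | (∀ a ∈ m, a.Countable) ∧
      ∀ a ∈ m, ∀ b ∈ m, a ≠ b → (a ∩ b).Finite} := by
    refine ⟨?_, ?_⟩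
    · rintro a (rfl | ha)
      · exact hBc
      · exact hm.1.1 a ha
    · rintro a (rfl | ha) b (rfl | hb) hab
      · exact absurd rfl hab
      · exact (hfin b hb).subset fun x hx => ⟨hx.2, hBA hx.1⟩
      · exact (hfin a ha).subset fun x hx => ⟨hx.1, hBA hx.2⟩
      · exact hm.1.2 a ha b hb hab
  have hBm : B ∈ m := hm.2 hmem (subset_insert _ _) (mem_insert _ _)
  exact hB ((hfin B hBm).subset fun x hx => ⟨hx, hBA hx⟩)

lemma exists_levels (α : Type) : ∃ (Y : Type) (lv : Y → ℕ) (s : Y → Set Y),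
    Cardinal.mk α ≤ Cardinal.mk Y ∧ (∀ y, (s y).Countable) ∧ (∀ y, ∀ z ∈ s y, lv z + 1 = lv y) ∧
    (∀ y z, y ≠ z → (s y ∩ s z).Finite) ∧
    ∀ (n : ℕ) (A : Set Y), (∀ z ∈ A, lv z = n) → A.Infinite → ∃ y, (s y ∩ A).Infinite := by
  choose mad h1 h2 h3 using exists_mad
  obtain ⟨L, L0, LS⟩ : ∃ L : ℕ → Type, L 0 = α ∧ ∀ n, L (n + 1) = ↥(mad (L n)) :=
    ⟨fun n => Nat.rec α (fun _ β => ↥(mad β)) n, rfl, fun _ => rfl⟩
  have e : ∀ n, L (n + 1) ≃ ↥(mad (L n)) := fun n => Equiv.cast (LS n)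
  refine ⟨Σ n, L n, fun y => y.1,
    fun y => {z | ∃ (n : ℕ) (a : L (n + 1)) (x : L n), y = ⟨n + 1, a⟩ ∧ x ∈ (e n a).1 ∧ z = ⟨n, x⟩},
    ?_, ?_, ?_, ?_, ?_⟩
  · rw [← L0]
    exact Cardinal.mk_le_of_injective (f := fun x : L 0 => (⟨0, x⟩ : Σ n, L n))
      sigma_mk_injective
  · rintro ⟨_ | n, a⟩
    · refine countable_empty.mono ?_
      rintro z ⟨n, b, x, h, -⟩
      exact absurd (congrArg Sigma.fst h) (by simp)
    · refine ((h1 _ _ (e n a).2).image (fun x => (⟨n, x⟩ : Σ n, L n))).mono ?_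
      rintro z ⟨k, b, x, h, hx, rfl⟩
      obtain rfl : n = k := by simpa using congrArg Sigma.fst h
      obtain rfl : a = b := sigma_mk_injective h
      exact ⟨x, hx, rfl⟩
  · rintro y z ⟨n, a, x, rfl, -, rfl⟩
    rfl
  · intro y z hyz
    by_cases hne : ∃ w, w ∈ {w : Σ n, L n | ∃ (n : ℕ) (a : L (n + 1)) (x : L n),
        y = ⟨n + 1, a⟩ ∧ x ∈ (e n a).1 ∧ w = ⟨n, x⟩} ∩ {w : Σ n, L n | ∃ (n : ℕ) (a : L (n + 1))
        (x : L n), z = ⟨n + 1, a⟩ ∧ x ∈ (e n a).1 ∧ w = ⟨n, x⟩}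
    · obtain ⟨w, ⟨n, a, x, rfl, -, rfl⟩, k, b, x', rfl, -, h⟩ := hne
      obtain rfl : n = k := congrArg Sigma.fst h
      have hab : (e n a).1 ≠ (e n b).1 := fun h' =>
        hyz (by rw [(e n).injective (Subtype.ext h')])
      refine ((h2 _ _ (e n a).2 _ (e n b).2 hab).image (fun x => (⟨n, x⟩ : Σ n, L n))).subset ?_
      rintro w ⟨⟨k, a', u, g1, g2, rfl⟩, k', b', u', g3, g4, g5⟩
      obtain rfl : n = k := by simpa using congrArg Sigma.fst g1
      obtain rfl : n = k' := congrArg Sigma.fst g5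
      obtain rfl : a = a' := sigma_mk_injective g1
      obtain rfl : b = b' := sigma_mk_injective g3
      obtain rfl : u = u' := sigma_mk_injective g5
      exact ⟨u, ⟨g2, g4⟩, rfl⟩
    · exact finite_empty.subset fun w hw => hne ⟨w, hw⟩
  · intro n A hA hinf
    have hB : ((fun x : L n => (⟨n, x⟩ : Σ n, L n)) ⁻¹' A).Infinite := by
      refine hinf.preimage ?_
      rintro ⟨k, x⟩ hz
      obtain rfl : k = n := hA _ hz
      exact ⟨x, rfl⟩
    obtain ⟨a, ha, hi⟩ := h3 _ _ hB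
    refine ⟨⟨n + 1, (e n).symm ⟨a, ha⟩⟩,
      (hi.image (f := fun x : L n => (⟨n, x⟩ : Σ n, L n)) sigma_mk_injective.injOn).mono ?_⟩
    rintro _ ⟨x, hx, rfl⟩
    exact ⟨⟨n, _, x, rfl, by rw [Equiv.apply_symm_apply]; exact hx.1, rfl⟩, hx.2⟩

lemma compact_of {X : Type} [TopologicalSpace X] {C T : Set X} (hT : T.Finite) (hTC : T ⊆ C)
    (h : ∀ O, IsOpen O → T ⊆ O → IsCompact (C \ O)) : IsCompact C := by
  classical
  refine isCompact_of_finite_subcover fun U hU hC => ?_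
  obtain ⟨t1, h1⟩ := hT.isCompact.elim_finite_subcover U hU (hTC.trans hC)
  obtain ⟨t2, h2⟩ := (h _ (isOpen_biUnion fun i _ => hU i) h1).elim_finite_subcover U hU
    (sdiff_subset.trans hC)
  refine ⟨t1 ∪ t2, fun x hx => ?_⟩
  by_cases hx1 : x ∈ ⋃ i ∈ t1, U i
  · obtain ⟨i, hi, hxi⟩ := mem_iUnion₂.1 hx1
    exact mem_iUnion₂.2 ⟨i, Finset.mem_union_left _ hi, hxi⟩
  · obtain ⟨i, hi, hxi⟩ := mem_iUnion₂.1 (h2 ⟨hx, hx1⟩)
    exact mem_iUnion₂.2 ⟨i, Finset.mem_union_right _ hi, hxi⟩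

lemma finite_of {X : Type} [TopologicalSpace X] {K A : Set X} {p : X} (hK : IsCompact K)
    (hp : p ∉ K) (hA : A ⊆ K) (h : ∀ B ⊆ A, IsClosed (insert p B)) : A.Finite := by
  obtain ⟨t, -, ht⟩ := hK.elim_nhds_subcover (fun x => (insert p (A \ {x}))ᶜ) fun x hx =>
    (h _ sdiff_subset).isOpen_compl.mem_nhds (by
      rintro (rfl | h')
      · exact hp hx
      · exact h'.2 rfl)
  refine t.finite_toSet.subset fun a ha => ?_
  obtain ⟨x, hx, hax⟩ := mem_iUnion₂.1 (ht (hA ha))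
  by_contra hat
  exact hax (Or.inr ⟨ha, fun e => hat (by rw [mem_singleton_iff.1 e]; exact hx)⟩)

lemma separate {Y : Type} {lv : Y → ℕ} {s : Y → Set Y} (hc : ∀ y, (s y).Countable)
    (hl : ∀ y, ∀ z ∈ s y, lv z + 1 = lv y) (had : ∀ y z, y ≠ z → (s y ∩ s z).Finite) (n : ℕ) :
    ∀ A B : Set Y, A.Countable → B.Countable → (∀ z ∈ A, z ∉ B) → (∀ z ∈ A ∪ B, lv z < n) →
      {z | z ∈ A ∪ B ∧ lv z + 1 < n}.Finite →
      ∃ U W : Set Y, A ⊆ U ∧ B ⊆ W ∧ (∀ z ∈ U, z ∉ W) ∧ (∀ z ∈ U ∪ W, lv z < n) ∧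
        (∀ y ∈ U, (s y \ U).Finite) ∧ ∀ y ∈ W, (s y \ W).Finite := by
  induction n with
  | zero =>
    intro A B _ _ hd hlv _
    exact ⟨A, B, Subset.rfl, Subset.rfl, hd, hlv,
      fun y hy => absurd (hlv y (Or.inl hy)) (Nat.not_lt_zero _),
      fun y hy => absurd (hlv y (Or.inr hy)) (Nat.not_lt_zero _)⟩
  | succ n ih =>
    intro A B hA hB hd hlv hfin
    obtain ⟨c, hcinj⟩ := countable_iff_exists_injOn.1 (hA.union hB)
    obtain ⟨D, hD⟩ : ∃ D : Set Y → Set Y → Set Y, ∀ P Q z, z ∈ D P Q ↔ (z ∈ P ∧ lv z < n) ∨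
        ∃ a ∈ P, lv a = n ∧ z ∈ s a ∧ z ∉ Q ∧ ∀ b ∈ Q, c b ≤ c a → z ∉ s b :=
      ⟨fun P Q => {z | (z ∈ P ∧ lv z < n) ∨
        ∃ a ∈ P, lv a = n ∧ z ∈ s a ∧ z ∉ Q ∧ ∀ b ∈ Q, c b ≤ c a → z ∉ s b}, fun _ _ _ => Iff.rfl⟩
    have d1 : ∀ P Q, P.Countable → (D P Q).Countable := by
      intro P Q hP
      refine (hP.union (hP.biUnion fun a _ => hc a)).mono fun z hz => ?_
      rcases (hD _ _ _).1 hz with h | ⟨a, ha, -, h, -⟩
      · exact Or.inl h.1
      · exact Or.inr (mem_biUnion ha h)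
    have d2 : ∀ P Q, ∀ z ∈ D P Q, lv z < n ∧ (lv z + 1 < n → z ∈ P) := by
      intro P Q z hz
      rcases (hD _ _ _).1 hz with h | ⟨a, ha, e, h, -⟩
      · exact ⟨h.2, fun _ => h.1⟩
      · have := hl a z h
        exact ⟨by omega, fun h' => by omega⟩
    have d3 : ∀ P Q, Q ⊆ A ∪ B → ∀ y ∈ P, y ∉ Q → lv y = n → (s y \ D P Q).Finite := by
      intro P Q hQ y hy hyQ e
      have f1 : {b | b ∈ Q ∧ c b ≤ c y}.Finite :=
        Finite.of_finite_image (f := c) ((finite_le_nat (c y)).subset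
          (by rintro _ ⟨b, hb, rfl⟩; exact hb.2)) (hcinj.mono fun b hb => hQ hb.1)
      refine (hfin.union (f1.biUnion fun b hb => had y b fun e' => hyQ (e' ▸ hb.1))).subset ?_
      rintro z ⟨hz, hzD⟩
      by_cases hzQ : z ∈ Q
      · have := hl y z hz
        exact Or.inl ⟨hQ hzQ, by omega⟩
      · by_contra hcon
        exact hzD ((hD _ _ _).2 (Or.inr ⟨y, hy, e, hz, hzQ, fun b hb hcb hzb =>
          hcon (Or.inr (mem_biUnion (t := fun b => s y ∩ s b)
            (show b ∈ {b | b ∈ Q ∧ c b ≤ c y} from ⟨hb, hcb⟩) ⟨hz, hzb⟩))⟩))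
    obtain ⟨U, W, k1, k2, k3, k4, k5, k6⟩ := ih (D A B) (D B A) (d1 _ _ hA) (d1 _ _ hB)
      (by
        intro z h1 h2
        rcases (hD _ _ _).1 h1 with h | ⟨a, ha, -, h, h', h''⟩ <;>
          rcases (hD _ _ _).1 h2 with g | ⟨b, hb, -, g, g', g''⟩
        · exact hd z h.1 g.1
        · exact g' h.1
        · exact h' g.1
        · rcases le_total (c b) (c a) with l | l
          · exact h'' b hb l g
          · exact g'' a ha l h)
      (by
        rintro z (h | h)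
        · exact (d2 _ _ z h).1
        · exact (d2 _ _ z h).1)
      (hfin.subset (by
        rintro z ⟨h | h, h'⟩
        · exact ⟨Or.inl ((d2 _ _ z h).2 h'), by omega⟩
        · exact ⟨Or.inr ((d2 _ _ z h).2 h'), by omega⟩))
    have lowA : ∀ z ∈ A, lv z < n → z ∈ U := fun z hz h => k1 ((hD _ _ _).2 (Or.inl ⟨hz, h⟩))
    have lowB : ∀ z ∈ B, lv z < n → z ∈ W := fun z hz h => k2 ((hD _ _ _).2 (Or.inl ⟨hz, h⟩))
    refine ⟨A ∪ U, B ∪ W, subset_union_left, subset_union_left, ?_, ?_, ?_, ?_⟩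
    · rintro z (h | h) (g | g)
      · exact hd z h g
      · exact k3 z (lowA z h (k4 z (Or.inr g))) g
      · exact k3 z h (lowB z g (k4 z (Or.inl h)))
      · exact k3 z h g
    · rintro z ((h | h) | (h | h))
      · exact hlv z (Or.inl h)
      · exact Nat.lt_succ_of_lt (k4 z (Or.inl h))
      · exact hlv z (Or.inr h)
      · exact Nat.lt_succ_of_lt (k4 z (Or.inr h))
    · rintro y (h | h)
      · by_cases e : lv y < n
        · exact (k5 y (lowA y h e)).subset fun z hz => ⟨hz.1, fun h' => hz.2 (Or.inr h')⟩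
        · have := hlv y (Or.inl h)
          exact (d3 A B subset_union_right y h (hd y h) (by omega)).subset
            fun z hz => ⟨hz.1, fun h' => hz.2 (Or.inr (k1 h'))⟩
      · exact (k5 y h).subset fun z hz => ⟨hz.1, fun h' => hz.2 (Or.inr h')⟩
    · rintro y (h | h)
      · by_cases e : lv y < n
        · exact (k6 y (lowB y h e)).subset fun z hz => ⟨hz.1, fun h' => hz.2 (Or.inr h')⟩
        · have := hlv y (Or.inr h)
          exact (d3 B A subset_union_left y h (fun h' => hd y h' h) (by omega)).subset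
            fun z hz => ⟨hz.1, fun h' => hz.2 (Or.inr (k2 h'))⟩
      · exact (k6 y h).subset fun z hz => ⟨hz.1, fun h' => hz.2 (Or.inr h')⟩

theorem result (κ : Cardinal.{0}) :
    ∃ (X : Type) (_ : TopologicalSpace X),
      CompactSpace X ∧ (∀ K : Set X, IsCompact K → IsClosed K) ∧
      (∃ p : X, T2Space ↥({p}ᶜ : Set X)) ∧
      (∃ V : X → ℕ → Set X,
        (∀ x n, x ∈ V x n) ∧
        (∀ x n, V x (n + 1) ⊆ V x n) ∧
        (∀ O : Set X, IsOpen O ↔ ∀ x ∈ O, ∃ n, V x n ⊆ O)) ∧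
      κ < Cardinal.mk X := by
  classical
  obtain ⟨Y, lv, s, hY, hc, hl, had, hmax⟩ := exists_levels (Set κ.out)
  choose g hg using fun y => countable_iff_exists_injOn.1 (hc y)
  obtain ⟨V, Vn, Vs⟩ : ∃ V : Option Y → ℕ → Set (Option Y),
      (∀ n x, x ∈ V none n ↔ ∀ z, x = some z → n ≤ lv z) ∧
      ∀ y n x, x ∈ V (some y) n ↔ x = some y ∨ ∃ z ∈ s y, n ≤ g y z ∧ x = some z :=
    ⟨fun p n => Option.rec {x | ∀ z, x = some z → n ≤ lv z}
      (fun y => {x | x = some y ∨ ∃ z ∈ s y, n ≤ g y z ∧ x = some z}) p,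
      fun _ _ => Iff.rfl, fun _ _ _ => Iff.rfl⟩
  have V1 : ∀ x n, x ∈ V x n := by
    rintro (_ | y) n
    · exact (Vn _ _).2 fun z hz => by cases hz
    · exact (Vs _ _ _).2 (Or.inl rfl)
  have V2 : ∀ x m n, m ≤ n → V x n ⊆ V x m := by
    rintro (_ | y) m n hmn x hx
    · exact (Vn _ _).2 fun z hz => hmn.trans ((Vn _ _).1 hx z hz)
    · rcases (Vs _ _ _).1 hx with h | ⟨z, h1, h2, h3⟩
      · exact (Vs _ _ _).2 (Or.inl h)
      · exact (Vs _ _ _).2 (Or.inr ⟨z, h1, hmn.trans h2, h3⟩)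
  let τ : TopologicalSpace (Option Y) :=
    { IsOpen := fun O => ∀ x ∈ O, ∃ n, V x n ⊆ O
      isOpen_univ := fun x _ => ⟨0, subset_univ _⟩
      isOpen_inter := fun A B hA hB x hx => by
        obtain ⟨m, hm⟩ := hA x hx.1
        obtain ⟨n, hn⟩ := hB x hx.2
        exact ⟨max m n, subset_inter ((V2 x _ _ (le_max_left _ _)).trans hm)
          ((V2 x _ _ (le_max_right _ _)).trans hn)⟩
      isOpen_sUnion := fun S hS x hx => by
        obtain ⟨A, hA, hxA⟩ := hx
        obtain ⟨n, hn⟩ := hS A hA x hxA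
        exact ⟨n, hn.trans (subset_sUnion_of_mem hA)⟩ }
  have hop : ∀ O : Set (Option Y), IsOpen O ↔ ∀ x ∈ O, ∃ n, V x n ⊆ O := fun _ => Iff.rfl
  have hcl : ∀ C : Set (Option Y), IsClosed C ↔
      (none ∉ C → ∃ n, ∀ z, some z ∈ C → lv z < n) ∧
      ∀ y, some y ∉ C → {z | z ∈ s y ∧ some z ∈ C}.Finite := by
    intro C
    rw [← isOpen_compl_iff, hop]
    constructor
    · intro h
      refine ⟨fun h0 => ?_, fun y hy => ?_⟩
      · obtain ⟨n, hn⟩ := h none h0
        refine ⟨n, fun z hz => ?_⟩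
        by_contra hlt
        exact hn ((Vn _ _).2 fun w hw => by cases hw; omega) hz
      · obtain ⟨n, hn⟩ := h (some y) hy
        refine Finite.of_finite_image (f := g y) ((finite_lt_nat n).subset ?_)
          ((hg y).mono fun z hz => hz.1)
        rintro _ ⟨z, hz, rfl⟩
        by_contra hlt
        exact hn ((Vs _ _ _).2 (Or.inr ⟨z, hz.1, not_lt.1 hlt, rfl⟩)) hz.2
    · rintro ⟨h0, h1⟩ (_ | y) hx
      · obtain ⟨n, hn⟩ := h0 hx
        refine ⟨n, ?_⟩
        rintro (_ | z) hz hz'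
        · exact hx hz'
        · exact absurd (hn z hz') (not_lt.2 ((Vn _ _).1 hz z rfl))
      · obtain ⟨n, hn⟩ := ((h1 y hx).image (g y)).bddAbove
        refine ⟨n + 1, fun x hxV hxC => ?_⟩
        rcases (Vs _ _ _).1 hxV with rfl | ⟨z, k1, k2, rfl⟩
        · exact hx hxC
        · have := hn ⟨z, ⟨k1, hxC⟩, rfl⟩
          omega
  have hlow : ∀ (n : ℕ) (C : Set (Option Y)), IsClosed C → none ∉ C →
      (∀ z, some z ∈ C → lv z < n) → IsCompact C := by
    intro n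
    induction n with
    | zero =>
      intro C _ h0 h
      refine Finite.isCompact (finite_empty.subset ?_)
      rintro (_ | z) hz
      · exact h0 hz
      · exact absurd (h z hz) (Nat.not_lt_zero _)
    | succ n ih =>
      intro C hC h0 h
      have hT : {z | lv z = n ∧ some z ∈ C}.Finite := by
        by_contra hinf
        obtain ⟨y, hy⟩ := hmax n _ (fun z hz => hz.1) hinf
        obtain ⟨w, hw⟩ := hy.nonempty
        have e1 := hl y w hw.1
        have e2 : lv w = n := hw.2.1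
        refine hy ((((hcl C).1 hC).2 y fun hyC => ?_).subset fun z hz => ⟨hz.1, hz.2.2⟩)
        have := h y hyC
        omega
      refine compact_of (hT.image some) (by rintro _ ⟨z, hz, rfl⟩; exact hz.2) fun O hO hTO => ?_
      refine ih _ (hC.sdiff hO) (fun h' => h0 h'.1) fun z hz => ?_
      have e1 := h z hz.1
      have e2 : lv z ≠ n := fun e => hz.2 (hTO ⟨z, ⟨e, hz.1⟩, rfl⟩)
      omega
  refine ⟨Option Y, τ, ⟨?_⟩, fun K hK => (hcl K).2 ⟨fun h0 => ?_, fun y hy => ?_⟩,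
    ⟨none, ⟨?_⟩⟩, ⟨V, V1, fun x n => V2 x _ _ (Nat.le_succ n), hop⟩, ?_⟩
  · refine compact_of (finite_singleton none) (subset_univ _) fun O hO h0 => ?_
    have hC : IsClosed (univ \ O) := isClosed_univ.sdiff hO
    have h1 : none ∉ univ \ O := fun h => h.2 (h0 rfl)
    obtain ⟨n, hn⟩ := ((hcl _).1 hC).1 h1
    exact hlow n _ hC h1 hn
  · have hex : ∀ n : ℕ, ∃ o : Option Y, (∃ z, some z ∈ K ∧ lv z = n) →
        ∃ z, some z ∈ K ∧ lv z = n ∧ o = some z := by
      intro n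
      by_cases h : ∃ z, some z ∈ K ∧ lv z = n
      · obtain ⟨z, k1, k2⟩ := h
        exact ⟨some z, fun _ => ⟨z, k1, k2, rfl⟩⟩
      · exact ⟨none, fun h' => absurd h' h⟩
    choose o ho using hex
    have hA : {x | ∃ z, x = some z ∧ some z ∈ K ∧ o (lv z) = some z}.Finite := by
      refine finite_of hK h0 (by rintro _ ⟨z, rfl, hz, -⟩; exact hz) fun B hB => ?_
      refine (hcl _).2 ⟨fun h => absurd (mem_insert _ _) h, fun y _ => ?_⟩
      refine Finite.of_finite_image (f := some) ((finite_singleton (o (lv y - 1))).subset ?_)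
        (Option.some_injective _).injOn
      rintro _ ⟨z, ⟨k1, k2 | k2⟩, rfl⟩
      · cases k2
      · obtain ⟨w, e1, -, e2⟩ := hB k2
        cases e1
        rw [← hl y z k1, Nat.add_sub_cancel, e2]
        rfl
    obtain ⟨n, hn⟩ := (hA.image fun x => x.elim 0 lv).bddAbove
    refine ⟨n + 1, fun z hz => ?_⟩
    obtain ⟨w, k1, k2, k3⟩ := ho (lv z) ⟨z, hz, rfl⟩
    have : lv w ≤ n := hn ⟨some w, ⟨w, rfl, k1, by rw [k2]; exact k3⟩, rfl⟩
    omega
  · have hA : (some '' {z | z ∈ s y ∧ some z ∈ K}).Finite := by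
      refine finite_of hK hy (by rintro _ ⟨z, hz, rfl⟩; exact hz.2) fun B hB => ?_
      refine (hcl _).2 ⟨fun _ => ⟨lv y + 1, ?_⟩, fun w hw => ?_⟩
      · rintro z (h | h)
        · cases h; omega
        · obtain ⟨u, hu, e⟩ := hB h
          cases e
          have := hl y z hu.1
          omega
      · have hwy : w ≠ y := fun e => hw (by rw [e]; exact mem_insert _ _)
        refine ((had w y hwy).insert y).subset ?_
        rintro z ⟨k1, h | h⟩
        · cases h; exact mem_insert _ _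
        · obtain ⟨u, hu, e⟩ := hB h
          cases e
          exact Or.inr ⟨k1, hu.1⟩
    exact Finite.of_finite_image hA (Option.some_injective _).injOn
  · have hopen : ∀ U : Set Y, (∀ y ∈ U, (s y \ U).Finite) → IsOpen (some '' U) := by
      intro U hU
      rw [← isClosed_compl_iff]
      refine (hcl _).2 ⟨fun h => absurd (by rintro ⟨_, -, e⟩; cases e) h, fun y hy => ?_⟩
      obtain ⟨w, hw, e⟩ := not_not.1 hy
      cases e
      exact (hU y hw).subset fun z hz => ⟨hz.1, fun h' => hz.2 ⟨z, h', rfl⟩⟩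
    rintro ⟨_ | x, hx⟩ ⟨_ | y, hy⟩ hxy
    · exact absurd rfl hx
    · exact absurd rfl hx
    · exact absurd rfl hy
    · have hne : x ≠ y := fun e => hxy (by subst e; rfl)
      obtain ⟨U, W, k1, k2, k3, -, k5, k6⟩ := separate hc hl had (lv x + lv y + 1) {x} {y}
        (countable_singleton _) (countable_singleton _)
        (by rintro z rfl h; exact hne h) (by rintro z (rfl | rfl) <;> omega)
        (((finite_singleton x).union (finite_singleton y)).subset fun z hz => hz.1)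
      refine ⟨Subtype.val ⁻¹' (some '' U), Subtype.val ⁻¹' (some '' W),
        (hopen U k5).preimage continuous_subtype_val, (hopen W k6).preimage continuous_subtype_val,
        ⟨x, k1 rfl, rfl⟩, ⟨y, k2 rfl, rfl⟩, disjoint_left.2 ?_⟩
      rintro z ⟨u, hu, e1⟩ ⟨w, hw, e2⟩
      obtain rfl : u = w := Option.some_injective _ (e1.trans e2.symm)
      exact k3 u hu hw
  · calc κ < 2 ^ κ := Cardinal.cantor κ
      _ = Cardinal.mk (Set κ.out) := by rw [Cardinal.mk_set, Cardinal.mk_out]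
      _ ≤ Cardinal.mk Y := hY
      _ ≤ Cardinal.mk (Option Y) := Cardinal.mk_le_of_injective (Option.some_injective _)

end Pool.Agent.Results.MP_f9875e_gt.CompactSetsClosed
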