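import Pool.Agent.Lib.MP_f9875e_gt.H28Final

/-!
There is a model of ZFC containing a weakly first countable compact Hausdorff space with more than
continuum many points.
-/

namespace Pool.Agent.Results.MP_f9875e_gt.ConsistentExample

open Pool.Agent.Lib.MP_898cae_lc Pool.Agent.Lib.MP_f9875e_gt

theorem result : ∃ (M : Type 1) (E : M → M → Prop), ZFC E ∧ LargeWFC E := main_con

end Pool.Agent.Results.MP_f9875e_gt.ConsistentExample
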