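import Pool.Agent.Lib.MP_f9875e_gt.DbMain

/-- The parametrized diamond principle for the bounding number gives weakly first countable compact
Hausdorff spaces of cardinality greater than any given cardinal below the first singular one. -/
theorem Pool.Agent.Results.MP_f9875e_gt.DiamondBounding.result
    (hd : ∀ F : (α : (Ordinal.omega.{0} 1).ToType) → (Set.Iio α → Bool) → (ℕ → ℕ),
      (∀ α, @Measurable _ _ (borel _) (borel _) (F α)) →
      ∃ g : (Ordinal.omega.{0} 1).ToType → (ℕ → ℕ), ∀ f : (Ordinal.omega.{0} 1).ToType → Bool,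
        IsStationary {α | ¬ ∀ᶠ n in Filter.atTop, g α n ≤ F α (fun β => f β) n})
    (κ : Cardinal.{0}) (hκ : κ < Cardinal.aleph Ordinal.omega0) :
    ∃ (X : Type) (_ : TopologicalSpace X),
      CompactSpace X ∧ T2Space X ∧
      (∃ V : X → ℕ → Set X,
        (∀ x n, x ∈ V x n) ∧
        (∀ x n, V x (n + 1) ⊆ V x n) ∧
        (∀ O : Set X, IsOpen O ↔ ∀ x ∈ O, ∃ n, V x n ⊆ O)) ∧
      κ < Cardinal.mk X := by
  refine Pool.Agent.Lib.MP_f9875e_gt.Db.main (fun F hF => hd F fun α => ?_) κ hκ
  have : Countable (Set.Iio α) := Cardinal.mk_le_aleph0_iff.1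
    ((Cardinal.mk_le_mk_of_subset Set.Iio_subset_Iic_self).trans
      (Pool.Agent.Lib.MP_f9875e_gt.Db.long_omega.ini α))
  rw [← BorelSpace.measurable_eq, ← BorelSpace.measurable_eq]
  exact hF α
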